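import Pool.Agent.U41.OD.Stm0

/-! Project OD, package EB (helper981). -/

set_option autoImplicit false

namespace Pool.Agent.U41.OD

open MvPolynomial

theorem eb_expand {R B σ : Type} [CommRing R] [CommRing B] [Algebra R B] (g : MvPolynomial σ R)
    (s : B) : aeval (fun l => C s * X l : σ → MvPolynomial σ B) g =
      ∑ m ∈ g.support, C (s ^ m.degree) * monomial m (algebraMap R B (coeff m g)) := by
  rw [aeval_def, eval₂_eq]
  refine Finset.sum_congr rfl fun m _ => ?_
  rw [MvPolynomial.algebraMap_apply, monomial_eq]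
  have h1 : ∏ i ∈ m.support, (C s * X i : MvPolynomial σ B) ^ m i =
      C (s ^ m.degree) * m.prod fun n e => (X n : MvPolynomial σ B) ^ e := by
    simp only [mul_pow]
    rw [Finset.prod_mul_distrib, Finset.prod_pow_eq_pow_sum, map_pow]
    rfl
  rw [h1]
  ring

theorem EB_ok : S_EB := by
  intro R B σ _ _ _ _ π k i g t w hg hk htw
  set s : B := t ^ (i + 1) * w ^ i with hs
  have hpk : algebraMap R B (π ^ k) = t ^ k * w ^ k := by
    rw [map_pow, ← htw, mul_pow]
  have key : ∀ m : σ →₀ ℕ, ∃ T₁ T₂ : MvPolynomial σ B,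
      C (s ^ m.degree) * monomial m (algebraMap R B (coeff m g)) =
        C (s ^ 2) * ((if m.degree = 2 then monomial m (algebraMap R B (coeff m g)) else 0) +
          C w * T₁ + C s * T₂) := by
    intro m
    rcases Nat.lt_or_ge m.degree 1 with h0 | h1
    · -- degree zero
      have hm : m = 0 := by
        have : m.degree = 0 := by omega
        exact (Finsupp.degree_eq_zero_iff m).1 this
      obtain ⟨u, -, hu⟩ := hg.const
      have hc : coeff m g = π ^ k * u := by rw [hm]; exact hu
      refine ⟨monomial m (t ^ (k - (2 * i + 2)) * w ^ (k - (2 * i + 1)) * algebraMap R B u), 0, ?_⟩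
      have hd : m.degree = 0 := by omega
      rw [if_neg (by omega), hd, pow_zero, C_1, one_mul, zero_add, mul_zero, add_zero,
        C_mul_monomial, C_mul_monomial, hc, map_mul, hpk]
      congr 1
      obtain ⟨j, rfl⟩ : ∃ j, k = 2 * i + 2 + j := ⟨k - (2 * i + 2), by omega⟩
      have e1 : 2 * i + 2 + j - (2 * i + 2) = j := by omega
      have e2 : 2 * i + 2 + j - (2 * i + 1) = j + 1 := by omega
      rw [e1, e2, hs]
      ring
    · rcases Nat.lt_or_ge m.degree 2 with h2 | h2
      · -- degree one
        have hd : m.degree = 1 := by omega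
        obtain ⟨l, hl⟩ : ∃ l, m = Finsupp.single l 1 := by
          have h9 : m ∈ Set.range (fun a : σ ↦ Finsupp.single a 1) := by
            rw [Finsupp.range_single_one]
            exact hd
          obtain ⟨l, hl⟩ := h9
          exact ⟨l, hl.symm⟩
        obtain ⟨b, hb⟩ := hg.lin l
        have hc : coeff m g = π ^ k * b := by rw [← hb, hl]
        refine ⟨monomial m (t ^ (k - (i + 1)) * w ^ (k - (i + 1)) * algebraMap R B b), 0, ?_⟩
        rw [if_neg (by omega), hd, pow_one, zero_add, mul_zero, add_zero,
          C_mul_monomial, C_mul_monomial, C_mul_monomial, hc, RingHom.map_mul, hpk]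
        congr 1
        obtain ⟨j, rfl⟩ : ∃ j, k = i + 1 + j := ⟨k - (i + 1), by omega⟩
        have e1 : i + 1 + j - (i + 1) = j := by omega
        rw [e1, hs]
        ring
      · rcases Nat.lt_or_ge m.degree 3 with h3 | h3
        · have hd : m.degree = 2 := by omega
          refine ⟨0, 0, ?_⟩
          rw [if_pos hd, hd, mul_zero, mul_zero, add_zero, add_zero]
        · refine ⟨0, C (s ^ (m.degree - 3)) * monomial m (algebraMap R B (coeff m g)), ?_⟩
          rw [if_neg (by omega), mul_zero, zero_add, zero_add]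
          obtain ⟨j, hj⟩ : ∃ j, m.degree = 3 + j := ⟨m.degree - 3, by omega⟩
          have e1 : 3 + j - 3 = j := by omega
          rw [hj, e1, ← mul_assoc, ← mul_assoc, ← C_mul, ← C_mul]
          congr 2
          ring
  choose T₁ T₂ hT using key
  refine ⟨_, ∑ m ∈ g.support, T₁ m, ∑ m ∈ g.support, T₂ m, ?_, rfl⟩
  rw [eb_expand, homogeneousComponent_apply, map_sum, Finset.sum_filter, Finset.mul_sum,
    Finset.mul_sum, ← Finset.sum_add_distrib, ← Finset.sum_add_distrib, Finset.mul_sum]
  refine Finset.sum_congr rfl fun m _ => ?_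
  rw [hT m]
  congr 3
  rw [map_monomial]

end Pool.Agent.U41.OD
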